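import Pool.Agent.H207.TF.Stm3
import Pool.Agent.H784.TF207.TANR

/-!
# Derivatives of the orbit maps in coefficient space (ORBD)
-/

set_option autoImplicit false

open Metric Set MeasureTheory Filter Topology Polynomial
open scoped OnePoint ENNReal

namespace Pool.Agent.H356.TF207

open Pool.Agent.H792R2.CE Pool.Agent.H211.LR Pool.Agent.H211.AD Pool.Agent.H207.TF

/-- derivative of the orbit along a curve -/
theorem orb_curve {d : ℕ} {p : ℂ → EE d} {v : EE d} (hp : HasDerivAt p v 0) {c : ℂ → ℂ} {w : ℂ}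
    (hc : HasDerivAt c w 0) (n : ℕ)
    (hn : ∀ j < n, (QQ (p 0)).eval ((rf (PP (p 0)) (QQ (p 0)))^[j] (c 0)) ≠ 0) :
    HasDerivAt (fun s => (rf (PP (p s)) (QQ (p s)))^[n] (c s))
      (spd (PP (p 0)) (QQ (p 0)) (varS (p 0) v) (c 0) w n) 0 := by
  induction n with
  | zero => exact hc
  | succ n ih =>
    have h1 := ih (fun j hj => hn j (by omega))
    have h2 := Pool.Agent.H784.TF207.step hp _ _ h1 (hn n (by omega))
    simp only [Function.iterate_succ_apply']
    exact h2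

/-- smoothness of the orbit maps -/
theorem orb_cd {d : ℕ} (x : EE d) (z : ℂ) (n : ℕ)
    (hn : ∀ j < n, (QQ x).eval ((rf (PP x) (QQ x))^[j] z) ≠ 0) :
    ContDiffAt ℂ 1 (fun p : EE d × ℂ => (rf (PP p.1) (QQ p.1))^[n] p.2) (x, z) := by
  induction n with
  | zero => exact contDiffAt_snd
  | succ n ih =>
    have h1 := ih (fun j hj => hn j (by omega))
    have h2 : ContDiffAt ℂ 1 (fun q : EE d × ℂ => rf (PP q.1) (QQ q.1) q.2)
        (x, (rf (PP x) (QQ x))^[n] z) :=
      PP_cd.contDiffAt.div QQ_cd.contDiffAt (hn n (by omega))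
    have h3 : ContDiffAt ℂ 1 (fun p : EE d × ℂ => (p.1, (rf (PP p.1) (QQ p.1))^[n] p.2)) (x, z) :=
      contDiffAt_fst.prodMk h1
    have h4 := ContDiffAt.comp (x, z)
      (g := fun q : EE d × ℂ => rf (PP q.1) (QQ q.1) q.2)
      (f := fun p : EE d × ℂ => (p.1, (rf (PP p.1) (QQ p.1))^[n] p.2)) h2 h3
    have h5 : (fun p : EE d × ℂ => (rf (PP p.1) (QQ p.1))^[n + 1] p.2) =
        (fun q : EE d × ℂ => rf (PP q.1) (QQ q.1) q.2) ∘
          (fun p : EE d × ℂ => (p.1, (rf (PP p.1) (QQ p.1))^[n] p.2)) := by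
      funext p
      simp only [Function.comp_apply, Function.iterate_succ_apply']
    rw [h5]
    exact h4

theorem t_ORBD : S_ORBD := by
  intro d x z n hn
  have h1 := orb_cd x z n hn
  refine ⟨h1, fun v w => ?_⟩
  have h2 := (h1.differentiableAt (by norm_num)).hasFDerivAt
  obtain ⟨p, hp⟩ : ∃ p : ℂ → EE d, p = fun s => x + s • v := ⟨_, rfl⟩
  obtain ⟨c, hc⟩ : ∃ c : ℂ → ℂ, c = fun s => z + s • w := ⟨_, rfl⟩
  have hpd : HasDerivAt p v 0 := by
    rw [hp]
    have := ((hasDerivAt_id (0 : ℂ)).smul_const v).const_add x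
    rw [one_smul] at this
    exact this
  have hcd : HasDerivAt c w 0 := by
    rw [hc]
    have := ((hasDerivAt_id (0 : ℂ)).smul_const w).const_add z
    rw [one_smul] at this
    exact this
  have hp0 : p 0 = x := by rw [hp]; simp
  have hc0 : c 0 = z := by rw [hc]; simp
  have h3 := orb_curve hpd hcd n (by rw [hp0, hc0]; exact hn)
  rw [hp0, hc0] at h3
  have h4 : HasDerivAt (fun s : ℂ => ((p s, c s) : EE d × ℂ)) (v, w) 0 := hpd.prodMk hcd
  have h2' : HasFDerivAt (fun p : EE d × ℂ => (rf (PP p.1) (QQ p.1))^[n] p.2)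
      (fderiv ℂ (fun p : EE d × ℂ => (rf (PP p.1) (QQ p.1))^[n] p.2) (x, z)) (p 0, c 0) := by
    rw [hp0, hc0]
    exact h2
  have h5 := h2'.comp_hasDerivAt (0 : ℂ) h4
  exact h5.unique h3

end Pool.Agent.H356.TF207
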